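import Mathlib

set_option autoImplicit false

namespace Pool.Agent.H869R2.Solenoid

open Set Topology

/-- The `p`-adic solenoid, as a subspace of the countable power of the circle. -/
def Sol (p : ℕ) : Set (ℕ → Circle) := {x | ∀ n, x (n + 1) ^ p = x n}

theorem isClosed_sol (p : ℕ) : IsClosed (Sol p) := by
  simp only [Sol, ofPred_forall]
  exact isClosed_iInter fun n => isClosed_eq (by fun_prop) (by fun_prop)

theorem exp_pow (t : ℝ) (n : ℕ) : Circle.exp t ^ n = Circle.exp (n * t) := by
  induction n with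
  | zero => simp
  | succ n ih =>
    rw [pow_succ, ih, ← Circle.exp_add]
    congr 1
    push_cast
    ring

/-- The one-parameter subgroup of the solenoid. -/
noncomputable def line (p : ℕ) (t : ℝ) : ℕ → Circle := fun n => Circle.exp (t / p ^ n)

theorem line_mem {p : ℕ} (hp : 0 < p) (t : ℝ) : line p t ∈ Sol p := by
  intro n
  simp only [line]
  rw [exp_pow]
  congr 1
  have : (p : ℝ) ≠ 0 := by exact_mod_cast hp.ne'
  field_simp
  ring

theorem continuous_line (p : ℕ) : Continuous (line p) := by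
  unfold line
  exact continuous_pi fun n => Circle.exp.continuous.comp (by fun_prop)

theorem line_add (p : ℕ) (s t : ℝ) : line p (s + t) = line p s * line p t := by
  funext n
  simp only [line, Pi.mul_apply]
  rw [← Circle.exp_add, add_div]

theorem mul_mem {p : ℕ} {x y : ℕ → Circle} (hx : x ∈ Sol p) (hy : y ∈ Sol p) : x * y ∈ Sol p := by
  intro n
  simp only [Pi.mul_apply]
  rw [mul_pow, hx n, hy n]

/-- Elements of the solenoid agreeing at level `n` agree at all lower levels. -/
theorem agree {p : ℕ} {x y : ℕ → Circle} (hx : x ∈ Sol p) (hy : y ∈ Sol p) {n : ℕ}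
    (h : x n = y n) : ∀ k ≤ n, x k = y k := by
  induction n with
  | zero => intro k hk; rw [Nat.le_zero.mp hk]; exact h
  | succ n ih =>
    intro k hk
    rcases Nat.of_le_succ hk with h1 | h1
    · apply ih _ k h1
      rw [← hx n, ← hy n, h]
    · rw [h1]; exact h

theorem continuous_coord (p n : ℕ) : Continuous (fun a : Sol p => a.1 n) :=
  (continuous_apply n).comp continuous_subtype_val

theorem exists_level {p : ℕ} {O : Set (Sol p)} (hO : IsOpen O) {x : Sol p} (hx : x ∈ O) :
    ∃ n : ℕ, ∀ m, n ≤ m → ∀ y : Sol p, y.1 m = x.1 m → y ∈ O := by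
  obtain ⟨O', hO', rfl⟩ := isOpen_induced_iff.mp hO
  rw [mem_preimage] at hx
  rw [isOpen_pi_iff] at hO'
  obtain ⟨I, u, hu, hI⟩ := hO' x.1 hx
  refine ⟨I.sup id, fun m hm y hy => ?_⟩
  apply hI
  intro i hi
  have hi' : i ≤ m := le_trans (Finset.le_sup (f := id) hi) hm
  rw [agree y.2 x.2 hy i hi']
  exact (hu i hi).2

/-- a continuous choice of `p`-th root on the complement of a point of the circle -/
noncomputable def root (p : ℕ) (c z : Circle) : Circle :=
  Circle.exp (Complex.arg ((-z / c : Circle) : ℂ) / p) * Circle.exp (Complex.arg ((-c : Circle) : ℂ) / p)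

theorem root_pow {p : ℕ} (hp : 0 < p) (c z : Circle) : root p c z ^ p = z := by
  have hp' : (p : ℝ) ≠ 0 := by exact_mod_cast hp.ne'
  unfold root
  rw [mul_pow, exp_pow, exp_pow, mul_div_cancel₀ _ hp', mul_div_cancel₀ _ hp', Circle.exp_arg,
    Circle.exp_arg]
  apply Circle.ext
  push_cast
  field_simp

theorem continuousOn_root (p : ℕ) (c : Circle) : ContinuousOn (root p c) {c}ᶜ := by
  intro z hz
  apply ContinuousAt.continuousWithinAt
  unfold root
  refine ContinuousAt.mul ?_ continuousAt_const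
  refine Circle.exp.continuous.continuousAt.comp ?_
  refine ContinuousAt.div_const ?_ _
  refine ContinuousAt.comp (g := Complex.arg) (f := fun w : Circle => ((-w / c : Circle) : ℂ)) ?_ ?_
  · apply Complex.continuousAt_arg
    rw [Complex.mem_slitPlane_iff_arg]
    constructor
    · intro h
      apply hz
      have h1 : Circle.exp (Complex.arg ((-z / c : Circle) : ℂ)) = Circle.exp Real.pi := by rw [h]
      rw [Circle.exp_arg] at h1
      have h2 : ((-z / c : Circle) : ℂ) = -1 := by
        rw [h1, Circle.coe_exp, Complex.exp_pi_mul_I]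
      rw [mem_singleton_iff]
      apply Circle.ext
      have hc : (c : ℂ) ≠ 0 := c.coe_ne_zero
      push_cast at h2
      rw [div_eq_iff hc] at h2
      simpa using h2
    · exact Circle.coe_ne_zero _
  · have : Continuous (fun w : Circle => ((w : Circle) : ℂ)) := by fun_prop
    exact (this.comp (by fun_prop)).continuousAt

theorem finite_roots {p : ℕ} (hp : 0 < p) : {w : Circle | w ^ p = 1}.Finite := by
  have h1 : {z : ℂ | z ^ p = 1}.Finite := by
    refine (Polynomial.nthRoots p (1 : ℂ)).toFinset.finite_toSet.subset ?_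
    intro z hz
    rw [Finset.mem_coe, Multiset.mem_toFinset, Polynomial.mem_nthRoots hp]
    exact hz
  refine Finite.of_finite_image (f := ((↑) : Circle → ℂ)) (h1.subset ?_) Circle.coe_injective.injOn
  rintro _ ⟨w, hw, rfl⟩
  rw [mem_ofPred_eq] at hw ⊢
  rw [← Circle.coe_pow, hw, Circle.coe_one]

/-- A closed connected subset of the solenoid with nonempty interior is everything. -/
theorem eq_univ_of_interior {p : ℕ} (hp : 2 ≤ p) {A : Set (Sol p)} (hA : IsClosed A)
    (hc : IsPreconnected A) (hi : (interior A).Nonempty) : A = univ := by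
  by_contra hne
  obtain ⟨y, hy⟩ := (ne_univ_iff_exists_notMem A).mp hne
  obtain ⟨x, hx⟩ := hi
  obtain ⟨n1, h1⟩ := exists_level hA.isOpen_compl (x := y) hy
  obtain ⟨n2, h2⟩ := exists_level isOpen_interior hx
  have hp0 : 0 < p := by omega
  have hp' : (p : ℝ) ≠ 0 := by exact_mod_cast hp0.ne'
  set m := max n1 n2 with hm
  have hAm : ∀ a ∈ A, a.1 m ≠ y.1 m := fun a ha h => h1 m (le_max_left _ _) a h ha
  let g : Sol p → Circle := fun a => a.1 (m + 1) * (root p (y.1 m) (a.1 m))⁻¹
  have hg : ContinuousOn g A := by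
    refine ContinuousOn.mul (continuous_coord p (m + 1)).continuousOn ?_
    refine ContinuousOn.inv ?_
    exact (continuousOn_root p (y.1 m)).comp (continuous_coord p m).continuousOn hAm
  have hmaps : MapsTo g A {w : Circle | w ^ p = 1} := by
    intro a _
    simp only [g, mem_ofPred_eq]
    rw [mul_pow, inv_pow, root_pow hp0, a.2 m, mul_inv_cancel]
  have hconst : ∀ a ∈ A, ∀ b ∈ A, g a = g b := fun a ha b hb =>
    hc.constant_of_mapsTo (finite_roots hp0).isDiscrete hg hmaps ha hb
  have hz : x.1 * line p (2 * Real.pi * p ^ m) ∈ Sol p := mul_mem x.2 (line_mem hp0 _)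
  let z : Sol p := ⟨_, hz⟩
  have hlm : line p (2 * Real.pi * p ^ m) m = 1 := by
    simp only [line]
    rw [mul_div_cancel_right₀ _ (pow_ne_zero m hp')]
    exact Circle.exp_two_pi
  have hzm : z.1 m = x.1 m := by
    simp only [z, Pi.mul_apply, hlm, mul_one]
  have hzA : z ∈ A := interior_subset (h2 m (le_max_right _ _) z hzm)
  have hxA : x ∈ A := interior_subset hx
  have hgz := hconst z hzA x hxA
  simp only [g, hzm] at hgz
  have h3 := mul_right_cancel hgz
  simp only [z, Pi.mul_apply] at h3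
  have h4 : line p (2 * Real.pi * p ^ m) (m + 1) = 1 := mul_eq_left.mp h3
  simp only [line] at h4
  have h5 : (2 * Real.pi * p ^ m / p ^ (m + 1) : ℝ) = 2 * Real.pi / p := by
    rw [pow_succ]
    field_simp
  rw [h5, Circle.exp_eq_one] at h4
  obtain ⟨k, hk⟩ := h4
  have hpi : Real.pi ≠ 0 := Real.pi_ne_zero
  have h6 : (1 : ℝ) = k * p := by
    field_simp at hk
    linarith
  have h7 : (1 : ℤ) = k * p := by exact_mod_cast h6
  have h8 : (p : ℤ) ∣ 1 := ⟨k, by rw [h7]; ring⟩
  have := Int.le_of_dvd one_pos h8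
  omega

/-- The solenoid is connected; more generally so is the closure of arcs of the diagonal flow. -/
theorem connected_strip {p q : ℕ} (hp : 0 < p) (hq : 0 < q) (hpq : Nat.Coprime p q)
    {α β : ℝ} (hαβ : α ≤ β) :
    IsConnected {s : Sol p × Sol q | ∃ r ∈ Icc α β, s.1.1 0 * (s.2.1 0)⁻¹ = Circle.exp r} := by
  let Γ : ℝ × ℝ → Sol p × Sol q :=
    fun w => (⟨line p (w.1 + w.2), line_mem hp _⟩, ⟨line q w.1, line_mem hq _⟩)
  have hΓ : Continuous Γ := by
    refine Continuous.prodMk ?_ ?_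
    · exact ((continuous_line p).comp (continuous_fst.add continuous_snd)).subtype_mk _
    · exact ((continuous_line q).comp continuous_fst).subtype_mk _
  have hT : IsConnected (Γ '' (univ ×ˢ Icc α β)) := by
    refine IsConnected.image ?_ _ hΓ.continuousOn
    exact isConnected_univ.prod (isConnected_Icc hαβ)
  refine hT.subset_closure ?_ ?_
  · rintro _ ⟨⟨t, r⟩, ⟨-, hr⟩, rfl⟩
    refine ⟨r, hr, ?_⟩
    simp only [Γ, line, pow_zero, div_one]
    rw [← Circle.exp_neg, ← Circle.exp_add]
    congr 1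
    ring
  · rintro ⟨x, y⟩ ⟨r, hr, hxy⟩
    rw [mem_closure_iff_nhds]
    intro N hN
    rw [mem_nhds_prod_iff] at hN
    obtain ⟨u, hu, v, hv, huv⟩ := hN
    obtain ⟨u', hu', hu'o, hxu⟩ := mem_nhds_iff.mp hu
    obtain ⟨v', hv', hv'o, hyv⟩ := mem_nhds_iff.mp hv
    obtain ⟨n1, h1⟩ := exists_level hu'o hxu
    obtain ⟨n2, h2⟩ := exists_level hv'o hyv
    set n := max n1 n2 with hn
    have hpn : ((p : ℝ) ^ n) ≠ 0 := pow_ne_zero _ (by exact_mod_cast hp.ne')
    have hqn : ((q : ℝ) ^ n) ≠ 0 := pow_ne_zero _ (by exact_mod_cast hq.ne')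
    set a : ℝ := p ^ n * Complex.arg (x.1 n) with ha
    set b : ℝ := q ^ n * Complex.arg (y.1 n) with hb
    have hax : line p a n = x.1 n := by
      simp only [line, ha]
      rw [mul_div_cancel_left₀ _ hpn, Circle.exp_arg]
    have hby : line q b n = y.1 n := by
      simp only [line, hb]
      rw [mul_div_cancel_left₀ _ hqn, Circle.exp_arg]
    have hax0 : Circle.exp a = x.1 0 := by
      have := agree (line_mem hp a) x.2 hax 0 (Nat.zero_le _)
      simpa [line] using this
    have hby0 : Circle.exp b = y.1 0 := by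
      have := agree (line_mem hq b) y.2 hby 0 (Nat.zero_le _)
      simpa [line] using this
    have hab : Circle.exp a = Circle.exp (b + r) := by
      rw [Circle.exp_add, hax0, hby0, ← hxy]
      simp only
      rw [mul_comm (x.1 0), mul_inv_cancel_left]
    obtain ⟨m, hm⟩ := Circle.exp_eq_exp.mp hab
    -- solve `q^n * B - p^n * A = m`
    have hcop : IsCoprime ((q : ℤ) ^ n) ((p : ℤ) ^ n) :=
      (Nat.isCoprime_iff_coprime.mpr hpq.symm).pow
    obtain ⟨c, d, hcd⟩ := hcop
    have hsol : (c * m : ℤ) * (q : ℤ) ^ n - (-(d * m) : ℤ) * (p : ℤ) ^ n = m := by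
      linear_combination m * hcd
    have hsol' : ((c * m : ℤ) : ℝ) * (q : ℝ) ^ n - ((-(d * m) : ℤ) : ℝ) * (p : ℝ) ^ n = m := by
      exact_mod_cast hsol
    set A : ℤ := -(d * m)
    set B : ℤ := c * m
    refine ⟨Γ (b + q ^ n * B * (2 * Real.pi), r), huv ⟨?_, ?_⟩, mem_image_of_mem _ ⟨mem_univ _, hr⟩⟩
    · apply hu'
      apply h1 n (le_max_left _ _)
      simp only [Γ]
      rw [← hax]
      simp only [line]
      rw [Circle.exp_eq_exp]
      refine ⟨A, ?_⟩
      rw [div_eq_iff hpn, add_mul, div_mul_cancel₀ _ hpn, hm]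
      linear_combination (2 * Real.pi) * hsol'
    · apply hv'
      apply h2 n (le_max_right _ _)
      simp only [Γ]
      rw [← hby]
      simp only [line]
      rw [Circle.exp_eq_exp]
      refine ⟨B, ?_⟩
      rw [div_eq_iff hqn, add_mul, div_mul_cancel₀ _ hqn]
      ring

theorem continuous_diff (p q : ℕ) :
    Continuous (fun s : Sol p × Sol q => s.1.1 0 * (s.2.1 0)⁻¹) :=
  ((continuous_coord p 0).comp continuous_fst).mul ((continuous_coord q 0).comp continuous_snd).inv

theorem closed_strip {p q : ℕ} (α β : ℝ) :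
    IsClosed {s : Sol p × Sol q | ∃ r ∈ Icc α β, s.1.1 0 * (s.2.1 0)⁻¹ = Circle.exp r} := by
  have h : {s : Sol p × Sol q | ∃ r ∈ Icc α β, s.1.1 0 * (s.2.1 0)⁻¹ = Circle.exp r}
      = (fun s : Sol p × Sol q => s.1.1 0 * (s.2.1 0)⁻¹) ⁻¹' (Circle.exp '' Icc α β) := by
    ext s
    constructor
    · rintro ⟨r, hr, h⟩; exact ⟨r, hr, h.symm⟩
    · rintro ⟨r, hr, h⟩; exact ⟨r, hr, h.symm⟩
  rw [h]
  exact (isCompact_Icc.image Circle.exp.continuous).isClosed.preimage (continuous_diff p q)

theorem mem_interior_strip {p q : ℕ} {α β : ℝ} {s : Sol p × Sol q} {r : ℝ} (hr : r ∈ Ioo α β)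
    (hs : s.1.1 0 * (s.2.1 0)⁻¹ = Circle.exp r) :
    s ∈ interior {s : Sol p × Sol q | ∃ r ∈ Icc α β, s.1.1 0 * (s.2.1 0)⁻¹ = Circle.exp r} := by
  rw [mem_interior]
  refine ⟨(fun s : Sol p × Sol q => s.1.1 0 * (s.2.1 0)⁻¹) ⁻¹' (Circle.exp '' Ioo α β), ?_, ?_, ?_⟩
  · rintro s ⟨r, hr, h⟩; exact ⟨r, Ioo_subset_Icc_self hr, h.symm⟩
  · exact (isLocalHomeomorph_circleExp.isOpenMap _ isOpen_Ioo).preimage (continuous_diff p q)
  · exact ⟨r, hr, hs.symm⟩

theorem connected_sol {p : ℕ} (hp : 0 < p) : ConnectedSpace (Sol p) := by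
  have h := connected_strip (p := p) (q := 1) hp one_pos (Nat.coprime_one_right p)
    (α := 0) (β := 2 * Real.pi) (by positivity)
  have h2 : Prod.fst '' {s : Sol p × Sol 1 | ∃ r ∈ Icc (0:ℝ) (2 * Real.pi),
      s.1.1 0 * (s.2.1 0)⁻¹ = Circle.exp r} = univ := by
    rw [eq_univ_iff_forall]
    intro x
    refine ⟨(x, ⟨1, fun n => by simp⟩), ?_, rfl⟩
    simp only [Pi.one_apply, inv_one, mul_one, mem_ofPred_eq]
    by_cases h0 : 0 ≤ Complex.arg (x.1 0)
    · exact ⟨_, ⟨h0, by linarith [Complex.arg_le_pi (x.1 0 : ℂ), Real.pi_pos]⟩,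
        (Circle.exp_arg _).symm⟩
    · push Not at h0
      refine ⟨Complex.arg (x.1 0) + 2 * Real.pi, ⟨by linarith [Complex.neg_pi_lt_arg (x.1 0 : ℂ),
        Real.pi_pos], by linarith⟩, ?_⟩
      rw [Circle.exp_add, Circle.exp_arg, Circle.exp_two_pi, mul_one]
  have h3 := h.image Prod.fst continuous_fst.continuousOn
  rw [h2] at h3
  exact connectedSpace_iff_univ.mpr h3

theorem compact_sol (p : ℕ) : CompactSpace (Sol p) :=
  isCompact_iff_compactSpace.mp (isClosed_sol p).isCompact

end Pool.Agent.H869R2.Solenoid
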